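import Pool.Agent.L0h15.RM.Main

/-!
# MP_6a3dac_ag: regular proper flat models, new cases in all dimensions

`D` consists of the smooth proper varieties over a number field and of their proper flat models over the
ring of integers and over its local rings. `Question X` says that `X` has a regular proper flat model over
the ring of integers.
-/

set_option autoImplicit false

namespace Pool.Agent.Results.MP_6a3dac_ag.ManyFactors

open Pool.Agent.L0h15.RM

theorem result (D : Arith) (hG : D.General) (hR : D.Resolution) (hC : D.Constructions) :
    -- varieties which are in the class at all finite places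
    (∀ X, (∀ v, D.Class v X) → D.Question X) ∧
    -- flag bundles over surfaces
    (∀ X V, D.dim X ≤ 2 → D.Question (D.flag X V)) ∧
    -- products with varieties with logarithmic good reduction
    (∀ X Y, (∀ v, D.LogGood v X) → D.dim Y ≤ 2 → D.Question (D.prod X Y)) ∧
    (∀ X Y V, (∀ v, D.LogGood v X) → D.dim Y ≤ 2 → D.Question (D.prod X (D.flag Y V))) ∧
    -- products of two surfaces
    (∀ X Y, D.dim X ≤ 2 → D.dim Y ≤ 2 → (∀ v, D.LogGood v X ∨ D.LogGood v Y) →
      D.Question (D.prod X Y)) ∧
    -- closure properties of the question
    (∀ X Z, D.Question X → D.sdim X Z ≤ 1 → D.Question (D.bl X Z)) ∧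
    (∀ X Y, (∀ v, D.Good v X) → D.Question Y → D.Question (D.prod X Y)) ∧
    -- varieties of dimension three
    (D.Hironaka → ∀ X Y, D.dim X = 3 → D.Birational X Y → D.Question X →
      ∃ W, D.BirationalMorphism W Y ∧ D.Question W) := by
  refine ⟨fun X h => Arith.question_of_class hG hR hC h,
    fun X V h => Arith.question_of_class hG hR hC fun v => .log _ (.flag X V h),
    fun X Y h h' => Arith.question_of_class hG hR hC fun v =>
      .log _ (.prod X Y (h v) (.small Y h')),
    fun X Y V h h' => Arith.question_of_class hG hR hC fun v =>
      .log _ (.prod X _ (h v) (.flag Y V h')),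
    fun X Y hX hY h => Arith.question_of_class hG hR hC fun v => ?_,
    fun X Z h h' => Arith.question_blow hG hR hC Z h h',
    fun X Y h h' => Arith.question_prod hG hC h h',
    fun hH X Y h3 h hX => Arith.question_birational hG hR hC hH h3 h hX⟩
  rcases h v with h1 | h1
  · exact .log _ (.prod X Y h1 (.small Y hY))
  · exact .log _ (.swap Y X (.prod Y X h1 (.small X hX)))

end Pool.Agent.Results.MP_6a3dac_ag.ManyFactors
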